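import Pool.Agent.R566.WPL.Opt

/-!
# WPL trees are not `O(log n)`-competitive

A zigzag path on which the keys are accessed in the order from the root to the last node, again
and again, is never changed by the WPL tree algorithm, although every round costs `n (n + 1) / 2`.
The zigzag path can be forced from every initial tree.
-/

set_option autoImplicit false

namespace Pool.Agent.Results.MP_69b7b0_lc.NotLogCompetitive

open Pool.Agent.R566.WPL Pool.Agent.R566.WPL.BST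

/-- **The WPL tree algorithm is not `O(log n)`-competitive.**  (1) For every `n ≥ 1`, every initial
tree `T₀` on the keys `1, …, n`, every `c < (n + 1) / (2 (⌊log₂ n⌋ + 1))` and every `a` there is a
request sequence `σ` with `cost(T₀, σ) > c · OPT(T₀, σ) + a`.  (2) Hence there is no constant `C` with
`cost(T₀, σ) ≤ C · log n · OPT(T₀, σ) + C n` for all `n ≥ 2`, all `T₀` and all `σ`. -/
theorem result :
    (∀ n : ℕ, 1 ≤ n → ∀ T₀ : BST, On n T₀ → ∀ c a : ℝ,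
      c < ((n : ℝ) + 1) / (2 * ((Nat.log 2 n : ℕ) + 1 : ℝ)) →
      ∃ σ : List ℕ, (∀ x ∈ σ, 1 ≤ x ∧ x ≤ n) ∧
        c * (opt T₀ σ : ℝ) + a < (wplCost T₀ σ : ℝ)) ∧
    ¬ (∃ C : ℝ, ∀ n : ℕ, 2 ≤ n → ∀ T₀ : BST, On n T₀ → ∀ σ : List ℕ,
      (∀ x ∈ σ, 1 ≤ x ∧ x ≤ n) →
      (wplCost T₀ σ : ℝ) ≤ C * Real.log n * (opt T₀ σ : ℝ) + C * n) := by
  have h1 : ∀ n : ℕ, 1 ≤ n → ∀ T₀ : BST, On n T₀ → ∀ c a : ℝ,
      c < ((n : ℝ) + 1) / (2 * ((Nat.log 2 n : ℕ) + 1 : ℝ)) →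
      ∃ σ : List ℕ, (∀ x ∈ σ, 1 ≤ x ∧ x ≤ n) ∧
        c * (opt T₀ σ : ℝ) + a < (wplCost T₀ σ : ℝ) := by
    intro n hn T₀ hT₀ c a hc
    exact exceeds hn hT₀ (opt T₀) (opt_le hT₀) c a hc
  refine ⟨h1, ?_⟩
  rintro ⟨C, hC⟩
  obtain ⟨k, hk1, hk⟩ := exists_lt_ratio_mul |C|
  have hn : 2 ≤ 2 ^ k := by
    calc 2 = 2 ^ 1 := by norm_num
      _ ≤ 2 ^ k := Nat.pow_le_pow_right (by norm_num) hk1
  have hlog : Real.log ((2 ^ k : ℕ) : ℝ) ≤ (k : ℝ) + 1 := by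
    push_cast
    rw [Real.log_pow]
    have h2 : Real.log 2 ≤ 1 := by
      have := Real.log_two_lt_d9
      linarith
    have h3 : (0 : ℝ) ≤ (k : ℝ) := Nat.cast_nonneg _
    nlinarith
  have hlog0 : 0 ≤ Real.log ((2 ^ k : ℕ) : ℝ) :=
    Real.log_nonneg (by exact_mod_cast Nat.one_le_two_pow)
  have hc : C * Real.log ((2 ^ k : ℕ) : ℝ) <
      (((2 ^ k : ℕ) : ℝ) + 1) / (2 * ((Nat.log 2 (2 ^ k) : ℕ) + 1 : ℝ)) := by
    refine lt_of_le_of_lt ?_ hk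
    calc C * Real.log ((2 ^ k : ℕ) : ℝ) ≤ |C| * Real.log ((2 ^ k : ℕ) : ℝ) :=
          mul_le_mul_of_nonneg_right (le_abs_self C) hlog0
      _ ≤ |C| * ((k : ℝ) + 1) := mul_le_mul_of_nonneg_left hlog (abs_nonneg C)
  obtain ⟨σ, hσ, h2⟩ := h1 (2 ^ k) (by omega) (balTree (2 ^ k)) (on_balTree _)
    (C * Real.log ((2 ^ k : ℕ) : ℝ)) (C * ((2 ^ k : ℕ) : ℝ)) hc
  exact absurd (hC (2 ^ k) hn (balTree (2 ^ k)) (on_balTree _) σ hσ) (not_le.2 h2)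

end Pool.Agent.Results.MP_69b7b0_lc.NotLogCompetitive
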